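import Pool.Agent.W2helper69.CY.A1a

/-! Piece F3 of squad CY (helper94): minimality of `a1`. -/

set_option autoImplicit false

namespace Pool.Agent.W2helper81.CY

open Polynomial Finset Pool.Agent.W2helper94.CY Pool.Agent.W2helper69.CY

lemma zero_mem_NF (p : Par) : ((0, 0, 0) : ℕ × ℕ × ℕ) ∈ p.NF := by
  have h2 := a2_pos p
  have h3 := a3_pos p
  have h4 := p.h14
  unfold Par.NF
  simp only [mem_union, mem_product, mem_range, mem_Ico]
  left
  exact ⟨h2, h3, h4⟩

lemma nf_no (p : Par) (hinj : ∀ q q' : ℕ × ℕ × ℕ, q ∈ p.NF → q' ∈ p.NF → ∀ k k' : ℕ,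
      p.wt q + k * p.n1 = p.wt q' + k' * p.n1 → q = q' ∧ k = k') (k i l j : ℕ) (hk : 0 < k)
    (h : k * p.n1 = i * p.n2 + l * p.n3 + j * p.n4) (hm : (i, l, j) ∈ p.NF) : False := by
  have h1 := hinj (i, l, j) (0, 0, 0) hm (zero_mem_NF p) 0 k (by
    unfold Par.wt
    simp only [zero_mul, add_zero, zero_add]
    exact h.symm)
  omega

theorem a1_min (p : Par) (hinj : ∀ q q' : ℕ × ℕ × ℕ, q ∈ p.NF → q' ∈ p.NF → ∀ k k' : ℕ,
      p.wt q + k * p.n1 = p.wt q' + k' * p.n1 → q = q' ∧ k = k') (k i l j : ℕ) (hk : 0 < k)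
    (h : k * p.n1 = i * p.n2 + l * p.n3 + j * p.n4) : p.a1 ≤ k := by
  have n1p := n1_pos p
  have n2p := n2_pos p
  have n3p := n3_pos p
  have n4p := n4_pos p
  have sub : ∀ x R : ℕ, k * p.n1 = x * p.n1 + R → 0 < R → x < k ∧ (k - x) * p.n1 = R := by
    intro x R hx hR
    have h1 : x * p.n1 < k * p.n1 := by omega
    have h2 : x < k := lt_of_mul_lt_mul_right h1 (Nat.zero_le _)
    refine ⟨h2, ?_⟩
    rw [Nat.sub_mul]
    omega
  by_cases c1 : p.a2 ≤ i
  · obtain ⟨i', rfl⟩ := Nat.exists_eq_add_of_le c1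
    have e : k * p.n1 = p.a21 * p.n1 + (i' * p.n2 + l * p.n3 + (j + p.a24) * p.n4) := by
      rw [h]; linear_combination r1 p
    have hR : 0 < i' * p.n2 + l * p.n3 + (j + p.a24) * p.n4 := by
      have := p.h24
      have : 0 < (j + p.a24) * p.n4 := Nat.mul_pos (by omega) n4p
      omega
    obtain ⟨hlt, hs⟩ := sub _ _ e hR
    have h21 := p.h21
    have := a1_min p hinj (k - p.a21) i' l (j + p.a24) (by omega) hs
    omega
  by_cases c2 : p.a3 ≤ l
  · obtain ⟨l', rfl⟩ := Nat.exists_eq_add_of_le c2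
    have e : k * p.n1 = p.a31 * p.n1 + ((i + p.a32) * p.n2 + l' * p.n3 + j * p.n4) := by
      rw [h]; linear_combination r2 p
    have hR : 0 < (i + p.a32) * p.n2 + l' * p.n3 + j * p.n4 := by
      have := p.h32
      have : 0 < (i + p.a32) * p.n2 := Nat.mul_pos (by omega) n2p
      omega
    obtain ⟨hlt, hs⟩ := sub _ _ e hR
    have h31 := p.h31
    have := a1_min p hinj (k - p.a31) (i + p.a32) l' j (by omega) hs
    omega
  by_cases c3 : p.a4 ≤ j
  · obtain ⟨j', rfl⟩ := Nat.exists_eq_add_of_le c3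
    have h4 := a4_pos p
    exact a1_min p hinj k (i + p.a42) (l + p.a43) j' hk (by rw [h]; linear_combination r3 p)
  by_cases c4 : p.a14 ≤ j
  · by_cases c5 : p.a13 ≤ l
    · obtain ⟨j', rfl⟩ := Nat.exists_eq_add_of_le c4
      obtain ⟨l', rfl⟩ := Nat.exists_eq_add_of_le c5
      have e : k * p.n1 = p.a1 * p.n1 + (i * p.n2 + l' * p.n3 + j' * p.n4) := by
        rw [h]; linear_combination (r0 p).symm
      exact le_of_mul_le_mul_right (by omega : p.a1 * p.n1 ≤ k * p.n1) n1p
    by_cases c6 : p.a32 ≤ i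
    · obtain ⟨j', rfl⟩ := Nat.exists_eq_add_of_le c4
      obtain ⟨i', rfl⟩ := Nat.exists_eq_add_of_le c6
      have e : k * p.n1 = p.a21 * p.n1 + (i' * p.n2 + (l + p.a43) * p.n3 + j' * p.n4) := by
        rw [h]; linear_combination r5 p
      have hR : 0 < i' * p.n2 + (l + p.a43) * p.n3 + j' * p.n4 := by
        have := p.h43
        have : 0 < (l + p.a43) * p.n3 := Nat.mul_pos (by omega) n3p
        omega
      obtain ⟨hlt, hs⟩ := sub _ _ e hR
      have h21 := p.h21
      have := a1_min p hinj (k - p.a21) i' (l + p.a43) j' (by omega) hs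
      omega
    · exfalso
      refine nf_no p hinj k i l j hk h ?_
      unfold Par.NF
      simp only [mem_union, mem_product, mem_range, mem_Ico]
      right
      omega
  · exfalso
    refine nf_no p hinj k i l j hk h ?_
    unfold Par.NF
    simp only [mem_union, mem_product, mem_range, mem_Ico]
    left
    omega
termination_by (k, j)
decreasing_by all_goals (first | (apply Prod.Lex.left; omega) | (apply Prod.Lex.right; omega))

end Pool.Agent.W2helper81.CY
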